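import Pool.Agent.H30.Paley.Chain

/-!
# Certificates: ternary words with vanishing `T₀`-moments have weight at least `33`
-/

namespace H30.Paley

open Finset

def t0mask : ℕ := 486226856721746414411477349941085579084303679855600384434815375359999

/-- leaf a1: zero classes [23], nonzero classes [14, 47, 121, 70] -/
def zm_a1 : ℕ := 486227062409816080310521457799880264736923930342158589511559794245631
def nm_a1 : ℕ := 1645604994205618789584071330945312881088628266887863457101660160
def ch_a1 : List (ℕ × ℕ) :=
  [(70, 0), (119, 27), (165, 1), (60, 81), (108, 28), (4, 162), (38, 9), (29, 18), (21, 189), (171, 10), (39, 3), (36, 6), (63, 7), (162, 19), (66, 4), (87, 90), (12, 30), (6, 171), (90, 36), (82, 54), (83, 63), (57, 84), (54, 87), (84, 37), (30, 91), (18, 29), (9, 5), (27, 109), (81, 100), (1, 103), (2, 45), (3, 39)]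

/-- leaf a2: zero classes [23, 70], nonzero classes [14, 47, 121, 17] -/
def zm_a2 : ℕ := 486228708014807029282750594193416247001526551483367262840958381572095
def nm_a2 : ℕ := 210624583340371207039911293059525122036382553299137485417377579008
def ch_a2 : List (ℕ × ℕ) :=
  [(220, 36), (4, 10), (99, 37), (238, 18), (237, 171), (20, 27), (21, 30), (36, 90), (19, 198), (9, 117), (3, 11), (83, 38), (2, 12), (82, 39), (74, 93), (1, 120), (235, 21), (234, 174), (162, 201), (153, 13), (75, 66), (78, 63), (240, 19), (239, 144), (81, 40), (236, 65), (72, 49), (54, 67), (45, 91), (233, 162), (18, 29), (27, 20)]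

/-- leaf a3: zero classes [23, 70, 17], nonzero classes [14, 47, 121, 26] -/
def zm_a3 : ℕ := 486439332598144143843230057808680809075284466549608185792317244817407
def nm_a3 : ℕ := 27607406636328932636628953245523476042822563205553911898660504938233856
def ch_a3 : List (ℕ × ℕ) :=
  [(180, 54), (47, 0), (135, 1), (19, 162), (113, 28), (109, 27), (163, 18), (38, 21), (11, 36), (39, 3), (12, 30), (45, 2), (55, 81), (37, 84), (83, 83), (33, 9), (36, 90), (1, 135), (171, 10), (63, 63), (54, 87), (84, 82), (81, 85), (189, 189), (162, 4), (28, 31), (2, 45), (30, 91), (3, 174), (9, 225), (18, 60), (27, 15)]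

/-- leaf a4: zero classes [23, 70, 17, 26], nonzero classes [14, 47, 121] -/
def zm_a4 : ℕ := 28093845968927073523825622855654361888849569204616461869918763668717567
def nm_a4 : ℕ := 3256646560447677794963048278467487058214534058514333696
def ch_a4 : List (ℕ × ℕ) :=
  [(39, 87), (170, 7), (160, 6), (166, 0), (112, 9), (85, 81), (6, 8), (93, 88), (23, 36), (15, 27), (31, 90), (4, 162), (192, 171), (9, 5), (165, 1), (111, 10), (108, 28), (163, 3), (12, 169), (164, 2), (29, 30), (21, 21), (84, 37), (30, 29), (3, 163), (83, 83), (2, 119), (82, 54), (1, 180), (162, 201), (81, 85), (27, 114)]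

/-- leaf b1: zero classes [47], nonzero classes [14, 121] and 242 -/
def zm_b1 : ℕ := 486226856721749670964501692742502740388064266954580934937984995540991
def nm_b1 : ℕ := 7067388259113537318333283539076550441111680105382863910150455694064631808
def ch_b1 : List (ℕ × ℕ) :=
  [(109, 27), (82, 54), (39, 3), (45, 81), (37, 84), (36, 6), (34, 87), (33, 9), (31, 90), (4, 162), (192, 171), (165, 1), (111, 10), (108, 18), (93, 28), (12, 2), (54, 82), (30, 91), (2, 12), (28, 93), (27, 99), (19, 102), (18, 108), (10, 111), (1, 135), (171, 192), (162, 4), (90, 31), (81, 55), (9, 112), (6, 115), (3, 39)]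

/-- leaf b2: zero classes [14, 43, 41, 17], nonzero classes [121] and 242 -/
def zm_b2 : ℕ := 486437481317637780426751977318673711247984332568866403249306069893119
def nm_b2 : ℕ := 7067388259113537318333190002971674065968391579072307578294038925731168256
def ch_b2 : List (ℕ × ℕ) :=
  [(67, 54), (121, 0), (40, 81), (201, 162), (120, 1), (119, 2), (118, 3), (117, 4), (114, 7), (112, 9), (31, 90), (13, 108), (39, 82), (111, 10), (109, 12), (93, 28), (85, 36), (10, 111), (108, 13), (82, 39), (84, 37), (28, 93), (36, 85), (90, 31), (12, 109), (4, 117), (27, 94), (3, 118), (9, 112), (2, 119), (1, 120), (81, 40)]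

/-- leaf b3: zero classes [14, 43, 41], nonzero classes [121, 17] and 242 -/
def zm_b3 : ℕ := 486226856734300665866272513703409149174226417502625480297947206647807
def nm_b3 : ℕ := 7067388469738120655447750482435289330530465336987373819216990284594413568
def ch_b3 : List (ℕ × ℕ) :=
  [(165, 2), (86, 81), (164, 3), (163, 54), (112, 9), (11, 6), (109, 12), (33, 18), (85, 82), (117, 36), (13, 108), (91, 30), (31, 90), (93, 28), (30, 21), (37, 84), (10, 7), (7, 10), (28, 189), (90, 31), (4, 13), (36, 117), (6, 45), (12, 109), (84, 37), (54, 163), (82, 85), (81, 40), (9, 112), (27, 94), (1, 16), (3, 118)]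

/-- leaf b4: zero classes [14, 43, 17], nonzero classes [121, 41] and 242 -/
def zm_b4 : ℕ := 486437481317637732536266324562567825088131012389998301381050054475775
def nm_b4 : ℕ := 7067388259113537318381080488624430171854551432392486446395907181746585600
def ch_b4 : List (ℕ × ℕ) :=
  [(120, 3), (126, 1), (94, 81), (114, 9), (85, 54), (91, 36), (64, 63), (13, 162), (31, 108), (117, 6), (37, 90), (192, 189), (109, 18), (111, 28), (39, 2), (165, 10), (55, 84), (12, 163), (30, 109), (108, 15), (36, 5), (90, 33), (10, 111), (4, 117), (84, 37), (82, 93), (2, 39), (81, 46), (3, 120), (27, 94), (9, 118), (242, 0)]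

/-- leaf b5: zero classes [14, 43], nonzero classes [121, 41, 17] and 242 -/
def zm_b5 : ℕ := 486226856734300617975786860947303263014373097323757378429691191230463
def nm_b5 : ℕ := 7067388469738120655495640968088045436416625190307552687318858540609830912
def ch_b5 : List (ℕ × ℕ) :=
  [(114, 9), (136, 3), (163, 12), (94, 81), (135, 18), (16, 1), (24, 27), (13, 28), (85, 82), (15, 108), (91, 36), (37, 4), (7, 10), (83, 84), (63, 90), (84, 55), (21, 30), (10, 7), (28, 13), (54, 99), (90, 37), (36, 87), (30, 93), (2, 15), (12, 111), (6, 11), (18, 109), (9, 8), (27, 112), (81, 86), (3, 164), (1, 16)]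

/-- leaf b6: zero classes [14, 17], nonzero classes [121, 43] and 242 -/
def zm_b6 : ℕ := 486437481305083529065492918432725284446587905478173163802942572068863
def nm_b6 : ℕ := 7067388259113549872536660776377803908509033122179219403431617033213575168
def ch_b6 : List (ℕ × ℕ) :=
  [(95, 0), (94, 27), (144, 1), (91, 54), (34, 9), (39, 90), (135, 10), (48, 81), (190, 3), (189, 4), (109, 12), (7, 36), (82, 63), (84, 45), (99, 30), (21, 108), (72, 57), (45, 84), (4, 189), (10, 135), (63, 82), (36, 7), (30, 163), (28, 93), (108, 13), (90, 55), (1, 192), (3, 190), (9, 136), (54, 91), (81, 64), (27, 118)]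

/-- leaf b7: zero classes [14, 41], nonzero classes [121, 43, 17] and 242 -/
def zm_b7 : ℕ := 486226856721746462395499107573566608532683310590800342719839724240895
def nm_b7 : ℕ := 7067388469738133209651221255841419173071106880094285644354568392076820480
def ch_b7 : List (ℕ × ℕ) :=
  [(126, 3), (115, 6), (43, 0), (112, 81), (109, 84), (16, 1), (24, 27), (39, 12), (34, 9), (15, 2), (99, 54), (55, 90), (189, 28), (13, 4), (111, 82), (33, 18), (7, 10), (6, 11), (108, 37), (18, 33), (30, 21), (82, 135), (54, 99), (4, 13), (90, 39), (28, 117), (162, 5), (81, 64), (9, 112), (1, 192), (3, 40), (27, 102)]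

/-- leaf b8: zero classes [14], nonzero classes [121, 43, 17, 41] and 242 -/
def zm_b8 : ℕ := 486226856721746414505013454817460722372829990411932240851583708823551
def nm_b8 : ℕ := 7067388469738133209699111741494175278957266733414464512456436648092237824
def ch_b8 : List (ℕ × ℕ) :=
  [(153, 0), (14, 27), (136, 81), (138, 1), (164, 3), (91, 54), (39, 84), (34, 9), (13, 30), (165, 2), (31, 12), (63, 82), (33, 90), (19, 108), (189, 28), (171, 4), (7, 10), (82, 57), (6, 11), (90, 63), (4, 39), (28, 93), (10, 117), (18, 111), (108, 21), (162, 55), (54, 85), (3, 92), (81, 64), (1, 192), (9, 34), (27, 100)]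


/-- `j` lies in the Frobenius orbit of `r` -/
def inOrb (r j : ℕ) : Bool := (List.range 5).any fun k => j == fold (3 ^ k * r)

/-- all bits of `Z` are justified by the list `l` of orbit representatives -/
def okZ (Z : ℕ) (l : List ℕ) : Bool :=
  (List.range 243).all fun j => !(Z.testBit j) || t0mask.testBit j || l.any fun r => inOrb r j

/-- all bits of `N` are justified by the list `l` of orbit representatives -/
def okN (N : ℕ) (w : Bool) (l : List ℕ) : Bool :=
  (List.range 243).all fun j => !(N.testBit j) || (w && j == 242) || l.any fun r => inOrb r j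

variable {F : Type*} [Field F] [Fintype F] [DecidableEq F]

/-- ternary functions whose moments vanish on `T₀` -/
structure IsWord (f : F → F) : Prop where
  cube : ∀ x, f x ^ 3 = f x
  zero : ∀ j < 243, t0mask.testBit j = true → mu f j = 0

lemma mu_frob [CharP F 3] {f : F → F} (hf : ∀ x, f x ^ 3 = f x) (j : ℕ) :
    mu f (3 * j) = mu f j ^ 3 := by
  unfold mu
  rw [sum_pow_char 3]
  refine Finset.sum_congr rfl fun x _ => ?_
  rw [mul_pow, hf, ← pow_mul, mul_comm 3 j]

lemma mu_frob_pow [CharP F 3] {f : F → F} (hf : ∀ x, f x ^ 3 = f x) (r k : ℕ) :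
    mu f (3 ^ k * r) = mu f r ^ 3 ^ k := by
  induction k with
  | zero => simp
  | succ k ih =>
    have : 3 ^ (k + 1) * r = 3 * (3 ^ k * r) := by ring
    rw [this, mu_frob hf, ih, ← pow_mul, pow_succ]

lemma mu_orb [CharP F 3] (hF : Fintype.card F = 243) {f : F → F} (hf : ∀ x, f x ^ 3 = f x)
    {r j : ℕ} (h : inOrb r j = true) : ∃ n : ℕ, n ≠ 0 ∧ mu f j = mu f r ^ n := by
  unfold inOrb at h
  rw [List.any_eq_true] at h
  obtain ⟨k, -, hk⟩ := h
  rw [beq_iff_eq] at hk
  refine ⟨3 ^ k, by positivity, ?_⟩
  rw [hk, mu_fold hF, mu_frob_pow hf]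

lemma okZ_spec [CharP F 3] (hF : Fintype.card F = 243) {f : F → F} (hf : IsWord f)
    {Z : ℕ} {l : List ℕ} (h : okZ Z l = true) (hl : ∀ r ∈ l, mu f r = 0) :
    ∀ j < 243, Z.testBit j = true → mu f j = 0 := by
  intro j hj hb
  unfold okZ at h
  rw [List.all_eq_true] at h
  have := h j (List.mem_range.mpr hj)
  rw [hb] at this
  simp only [Bool.not_true, Bool.false_or, Bool.or_eq_true, List.any_eq_true] at this
  rcases this with h1 | ⟨r, hr, h2⟩
  · exact hf.zero j hj h1
  · obtain ⟨n, hn, h3⟩ := mu_orb hF hf.cube h2
    rw [h3, hl r hr, zero_pow hn]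

lemma okN_spec [CharP F 3] (hF : Fintype.card F = 243) {f : F → F} (hf : IsWord f)
    {N : ℕ} {w : Bool} {l : List ℕ} (h : okN N w l = true) (hl : ∀ r ∈ l, mu f r ≠ 0)
    (hw : w = true → mu f 242 ≠ 0) :
    ∀ j < 243, N.testBit j = true → mu f j ≠ 0 := by
  intro j hj hb
  unfold okN at h
  rw [List.all_eq_true] at h
  have := h j (List.mem_range.mpr hj)
  rw [hb] at this
  simp only [Bool.not_true, Bool.false_or, Bool.or_eq_true, Bool.and_eq_true, beq_iff_eq,
    List.any_eq_true] at this
  rcases this with ⟨h1, h1'⟩ | ⟨r, hr, h2⟩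
  · subst h1'
    exact hw h1
  · obtain ⟨n, hn, h3⟩ := mu_orb hF hf.cube h2
    rw [h3]
    exact pow_ne_zero _ (hl r hr)

theorem leaf [CharP F 3] (hF : Fintype.card F = 243) {f : F → F} (hf : IsWord f)
    (X : Finset F) (hX : ∀ x, x ∉ X → f x = 0) (hne : X.Nonempty)
    (Z N : ℕ) (zl nl : List ℕ) (w : Bool) (L : List (ℕ × ℕ))
    (h1 : okZ Z zl = true) (h2 : okN N w nl = true) (h3 : valid Z N L = true)
    (h4 : L.length = 32)
    (hz : ∀ r ∈ zl, mu f r = 0) (hn : ∀ r ∈ nl, mu f r ≠ 0)
    (hw : w = true → mu f 242 ≠ 0) : 33 ≤ X.card := by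
  have := chain_bound hF X f hX hne Z N (okZ_spec hF hf h1 hz) (okN_spec hF hf h2 hn hw) L h3
  omega

/-- leaves used when the support contains `0` (so that `mu f 242 ≠ 0`) -/
theorem caseI [CharP F 3] (hF : Fintype.card F = 243) {f : F → F} (hf : IsWord f)
    (X : Finset F) (hX : ∀ x, x ∉ X → f x = 0) (hne : X.Nonempty)
    (hc : mu f 121 ≠ 0) (hw : mu f 242 ≠ 0) (h : mu f 14 = 0 ∨ mu f 47 = 0) :
    33 ≤ X.card := by
  by_cases h14 : mu f 14 = 0
  · by_cases h43 : mu f 43 = 0
    · by_cases h41 : mu f 41 = 0
      · by_cases h17 : mu f 17 = 0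
        · exact leaf hF hf X hX hne zm_b2 nm_b2 [14, 43, 41, 17] [121] true ch_b2
            (by decide +kernel) (by decide +kernel) (by decide +kernel) (by decide +kernel)
            (by simp [h14, h43, h41, h17]) (by simp [hc]) (fun _ => hw)
        · exact leaf hF hf X hX hne zm_b3 nm_b3 [14, 43, 41] [121, 17] true ch_b3
            (by decide +kernel) (by decide +kernel) (by decide +kernel) (by decide +kernel)
            (by simp [h14, h43, h41]) (by simp [hc, h17]) (fun _ => hw)
      · by_cases h17 : mu f 17 = 0
        · exact leaf hF hf X hX hne zm_b4 nm_b4 [14, 43, 17] [121, 41] true ch_b4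
            (by decide +kernel) (by decide +kernel) (by decide +kernel) (by decide +kernel)
            (by simp [h14, h43, h17]) (by simp [hc, h41]) (fun _ => hw)
        · exact leaf hF hf X hX hne zm_b5 nm_b5 [14, 43] [121, 41, 17] true ch_b5
            (by decide +kernel) (by decide +kernel) (by decide +kernel) (by decide +kernel)
            (by simp [h14, h43]) (by simp [hc, h41, h17]) (fun _ => hw)
    · by_cases h17 : mu f 17 = 0
      · exact leaf hF hf X hX hne zm_b6 nm_b6 [14, 17] [121, 43] true ch_b6
          (by decide +kernel) (by decide +kernel) (by decide +kernel) (by decide +kernel)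
          (by simp [h14, h17]) (by simp [hc, h43]) (fun _ => hw)
      · by_cases h41 : mu f 41 = 0
        · exact leaf hF hf X hX hne zm_b7 nm_b7 [14, 41] [121, 43, 17] true ch_b7
            (by decide +kernel) (by decide +kernel) (by decide +kernel) (by decide +kernel)
            (by simp [h14, h41]) (by simp [hc, h43, h17]) (fun _ => hw)
        · exact leaf hF hf X hX hne zm_b8 nm_b8 [14] [121, 43, 17, 41] true ch_b8
            (by decide +kernel) (by decide +kernel) (by decide +kernel) (by decide +kernel)
            (by simp [h14]) (by simp [hc, h43, h17, h41]) (fun _ => hw)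
  · have h47 : mu f 47 = 0 := h.resolve_left h14
    exact leaf hF hf X hX hne zm_b1 nm_b1 [47] [14, 121] true ch_b1
      (by decide +kernel) (by decide +kernel) (by decide +kernel) (by decide +kernel)
      (by simp [h47]) (by simp [hc, h14]) (fun _ => hw)

/-- leaves used when the moment `23` is normalised to `0` by a translation -/
theorem caseII [CharP F 3] (hF : Fintype.card F = 243) {f : F → F} (hf : IsWord f)
    (X : Finset F) (hX : ∀ x, x ∉ X → f x = 0) (hne : X.Nonempty)
    (hc : mu f 121 ≠ 0) (h14 : mu f 14 ≠ 0) (h47 : mu f 47 ≠ 0) (h23 : mu f 23 = 0) :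
    33 ≤ X.card := by
  by_cases h70 : mu f 70 = 0
  · by_cases h17 : mu f 17 = 0
    · by_cases h26 : mu f 26 = 0
      · exact leaf hF hf X hX hne zm_a4 nm_a4 [23, 70, 17, 26] [14, 47, 121] false ch_a4
          (by decide +kernel) (by decide +kernel) (by decide +kernel) (by decide +kernel)
          (by simp [h23, h70, h17, h26]) (by simp [hc, h14, h47]) (by simp)
      · exact leaf hF hf X hX hne zm_a3 nm_a3 [23, 70, 17] [14, 47, 121, 26] false ch_a3
          (by decide +kernel) (by decide +kernel) (by decide +kernel) (by decide +kernel)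
          (by simp [h23, h70, h17]) (by simp [hc, h14, h47, h26]) (by simp)
    · exact leaf hF hf X hX hne zm_a2 nm_a2 [23, 70] [14, 47, 121, 17] false ch_a2
        (by decide +kernel) (by decide +kernel) (by decide +kernel) (by decide +kernel)
        (by simp [h23, h70]) (by simp [hc, h14, h47, h17]) (by simp)
  · exact leaf hF hf X hX hne zm_a1 nm_a1 [23] [14, 47, 121, 70] false ch_a1
      (by decide +kernel) (by decide +kernel) (by decide +kernel) (by decide +kernel)
      (by simp [h23]) (by simp [hc, h14, h47, h70]) (by simp)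

end H30.Paley
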