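import Mathlib

/-!
# Triangular chains of moments (shifting bound)

`mu f j = ∑ x, f x * x ^ j` are the power moments of a function on a finite field with `243`
elements.  A list of pairs `(a, c)` for which the matrix of moments `mu f (a_i + c_j)` is
triangular with nonzero diagonal forces the support of `f` to be large.
-/

namespace H30.Paley

open Finset

variable {F : Type*} [Field F] [Fintype F] [DecidableEq F]

/-- the `j`-th power moment -/
def mu (f : F → F) (j : ℕ) : F := ∑ x, f x * x ^ j

/-- exponents on a field with `243` elements: `x ^ j = x ^ (fold j)` -/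
def fold (j : ℕ) : ℕ := if j < 243 then j else (j - 1) % 242 + 1

lemma fold_lt (j : ℕ) : fold j < 243 := by
  unfold fold
  split_ifs with h
  · exact h
  · have := Nat.mod_lt (j - 1) (show 0 < 242 by norm_num)
    omega

lemma pow_fold (hF : Fintype.card F = 243) (x : F) (j : ℕ) : x ^ fold j = x ^ j := by
  unfold fold
  split_ifs with h
  · rfl
  · have hx : x ^ 243 = x := by
      have := FiniteField.pow_card x
      rwa [hF] at this
    have key : ∀ m r : ℕ, x ^ (r + 1 + 242 * m) = x ^ (r + 1) := by
      intro m r
      induction m with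
      | zero => simp
      | succ m ih =>
        have : r + 1 + 242 * (m + 1) = (r + 242 * m) + 243 := by ring
        rw [this, pow_add, hx, ← pow_succ, ← ih]
        congr 1
        ring
    have h1 : j = (j - 1) % 242 + 1 + 242 * ((j - 1) / 242) := by
      have := Nat.mod_add_div (j - 1) 242
      omega
    conv_rhs => rw [h1]
    rw [key]

lemma mu_fold (hF : Fintype.card F = 243) (f : F → F) (j : ℕ) : mu f (fold j) = mu f j := by
  unfold mu
  exact Finset.sum_congr rfl fun x _ => by rw [pow_fold hF]

/-- the functional `u ↦ ∑_{x ∈ X} f x * x^c * u x` -/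
def phi (X : Finset F) (f : F → F) (c : ℕ) : (X → F) →ₗ[F] F where
  toFun u := ∑ x : X, f x * (x : F) ^ c * u x
  map_add' u v := by
    simp only [Pi.add_apply, mul_add, Finset.sum_add_distrib]
  map_smul' r u := by
    simp only [Pi.smul_apply, smul_eq_mul, RingHom.id_apply, Finset.mul_sum]
    exact Finset.sum_congr rfl fun x _ => by ring

/-- the monomial function `x ^ a` on `X` -/
def mon (X : Finset F) (a : ℕ) : X → F := fun x => (x : F) ^ a

lemma phi_mon (X : Finset F) (f : F → F) (hf : ∀ x, x ∉ X → f x = 0) (a c : ℕ) :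
    phi X f c (mon X a) = mu f (a + c) := by
  unfold phi mon mu
  simp only [LinearMap.coe_mk, AddHom.coe_mk]
  rw [← Finset.sum_subset (Finset.subset_univ X)
    (fun x _ hx => by rw [hf x hx, zero_mul])]
  rw [← Finset.sum_coe_sort X (fun x => f x * x ^ (a + c))]
  exact Finset.sum_congr rfl fun x _ => by rw [pow_add]; ring

/-- span of the constant function and the monomials of the chain -/
def chainSpan (X : Finset F) : List (ℕ × ℕ) → Submodule F (X → F)
  | [] => Submodule.span F {mon X 0}
  | p :: L => chainSpan X L ⊔ Submodule.span F {mon X p.1}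

/-- validity of a chain, `Z` and `N` are the bit masks of moments known to be zero, nonzero -/
def valid (Z N : ℕ) : List (ℕ × ℕ) → Bool
  | [] => true
  | p :: L => N.testBit (fold (p.1 + p.2)) && Z.testBit (fold p.2) &&
      L.all (fun r => Z.testBit (fold (r.1 + p.2))) && valid Z N L

theorem chainSpan_le_ker (X : Finset F) (f : F → F) (hf : ∀ x, x ∉ X → f x = 0) (c : ℕ) :
    ∀ L : List (ℕ × ℕ), mu f c = 0 → (∀ r ∈ L, mu f (r.1 + c) = 0) →
      chainSpan X L ≤ LinearMap.ker (phi X f c)
  | [], h0, _ => by
    rw [chainSpan, Submodule.span_le]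
    intro u hu
    rw [Set.mem_singleton_iff] at hu
    subst hu
    simp only [SetLike.mem_coe, LinearMap.mem_ker]
    rw [phi_mon X f hf, zero_add, h0]
  | p :: L, h0, hL => by
    rw [chainSpan]
    refine sup_le (chainSpan_le_ker X f hf c L h0 fun r hr => hL r (List.mem_cons_of_mem _ hr)) ?_
    rw [Submodule.span_le]
    intro u hu
    rw [Set.mem_singleton_iff] at hu
    subst hu
    simp only [SetLike.mem_coe, LinearMap.mem_ker]
    rw [phi_mon X f hf, hL p List.mem_cons_self]

theorem chain_finrank (hF : Fintype.card F = 243) (X : Finset F) (f : F → F)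
    (hf : ∀ x, x ∉ X → f x = 0) (hX : X.Nonempty) (Z N : ℕ)
    (hZ : ∀ j < 243, Z.testBit j = true → mu f j = 0)
    (hN : ∀ j < 243, N.testBit j = true → mu f j ≠ 0) :
    ∀ L : List (ℕ × ℕ), valid Z N L = true →
      L.length + 1 ≤ Module.finrank F (chainSpan X L)
  | [], _ => by
    simp only [List.length_nil, zero_add]
    rw [chainSpan]
    have hne : mon X 0 ≠ 0 := by
      obtain ⟨x, hx⟩ := hX
      intro h
      have := congrFun h ⟨x, hx⟩
      simp [mon] at this
    rw [finrank_span_singleton hne]
  | p :: L, hv => by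
    rw [valid] at hv
    simp only [Bool.and_eq_true, List.all_eq_true] at hv
    obtain ⟨⟨⟨h1, h2⟩, h3⟩, h4⟩ := hv
    have ih := chain_finrank hF X f hf hX Z N hZ hN L h4
    have hz0 : mu f p.2 = 0 := by
      rw [← mu_fold hF]
      exact hZ _ (fold_lt _) h2
    have hzL : ∀ r ∈ L, mu f (r.1 + p.2) = 0 := by
      intro r hr
      rw [← mu_fold hF]
      exact hZ _ (fold_lt _) (h3 r hr)
    have hker := chainSpan_le_ker X f hf p.2 L hz0 hzL
    have hlt : chainSpan X L < chainSpan X (p :: L) := by
      rw [chainSpan]
      refine lt_of_le_of_ne le_sup_left ?_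
      intro heq
      have hmem : mon X p.1 ∈ chainSpan X L := by
        rw [heq]
        exact Submodule.mem_sup_right (Submodule.mem_span_singleton_self _)
      have := hker hmem
      rw [LinearMap.mem_ker, phi_mon X f hf, ← mu_fold hF] at this
      exact hN _ (fold_lt _) h1 this
    have := Submodule.finrank_lt_finrank_of_lt hlt
    simp only [List.length_cons]
    omega

theorem chain_bound (hF : Fintype.card F = 243) (X : Finset F) (f : F → F)
    (hf : ∀ x, x ∉ X → f x = 0) (hX : X.Nonempty) (Z N : ℕ)
    (hZ : ∀ j < 243, Z.testBit j = true → mu f j = 0)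
    (hN : ∀ j < 243, N.testBit j = true → mu f j ≠ 0)
    (L : List (ℕ × ℕ)) (hv : valid Z N L = true) :
    L.length + 1 ≤ X.card := by
  have h1 := chain_finrank hF X f hf hX Z N hZ hN L hv
  have h2 := Submodule.finrank_le (chainSpan X L)
  rw [Module.finrank_fintype_fun_eq_card, Fintype.card_coe] at h2
  omega

end H30.Paley
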