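import Pool.Agent.H30.Paley.Reduce

/-!
# Descent to ternary words, and the valuation on `ℂ`
-/

set_option linter.unusedSectionVars false

namespace H30.Paley

open Finset

section descent

variable {F : Type*} [Field F] [Fintype F] [DecidableEq F] [CharP F 3]
variable {k : Type*} [Field k] (ι : F →+* k)

/-- solutions over `k` of the moment equations -/
def Sol (f : F → k) : Prop := ∀ j < 243, t0mask.testBit j = true → ∑ x, f x * ι x ^ j = 0

lemma t0_frob : ((List.range 243).all fun j => !(t0mask.testBit j) ||
    (t0mask.testBit ((81 * j) % 242) && (3 * ((81 * j) % 242)) % 242 == j &&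
      decide ((81 * j) % 242 < 243) && ((81 * j) % 242 == 0) == (j == 0))) = true := by
  decide +kernel

lemma sol_frob (hF : Fintype.card F = 243) (hk : (3 : k) = 0) {f : F → k} (hf : Sol ι f) :
    Sol ι (fun x => f x ^ 3) := by
  have : CharP k 3 := (CharP.charP_iff_prime_eq_zero Nat.prime_three).mpr (by exact_mod_cast hk)
  have : Fact (Nat.Prime 3) := ⟨Nat.prime_three⟩
  intro j hj hb
  have h := t0_frob
  rw [List.all_eq_true] at h
  have h1 := h j (List.mem_range.mpr hj)
  rw [hb] at h1
  simp only [Bool.not_true, Bool.false_or, Bool.and_eq_true, beq_iff_eq, decide_eq_true_eq] at h1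
  obtain ⟨⟨⟨h2, h3⟩, h4⟩, h5⟩ := h1
  have h6 := hf _ h4 h2
  have h7 : (∑ x, f x * ι x ^ ((81 * j) % 242)) ^ 3 = 0 := by rw [h6]; ring
  rw [sum_pow_char 3] at h7
  rw [← h7]
  refine Finset.sum_congr rfl fun x _ => ?_
  rw [mul_pow, ← pow_mul]
  congr 1
  rw [← map_pow, ← map_pow]
  congr 1
  by_cases hj0 : j = 0
  · subst hj0
    simp
  · by_cases hx : x = 0
    · subst hx
      have : (81 * j) % 242 ≠ 0 := by
        intro h0
        rw [h0] at h5
        simp only [beq_self_eq_true] at h5
        have := h5.symm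
        simp only [beq_iff_eq] at this
        exact hj0 this
      rw [zero_pow hj0, zero_pow (by omega)]
    · have h242 : x ^ 242 = 1 := by
        have := FiniteField.pow_card_sub_one_eq_one x hx
        rw [hF] at this
        exact this
      have : x ^ ((81 * j) % 242 * 3) = x ^ ((3 * ((81 * j) % 242)) % 242) := by
        conv_lhs => rw [mul_comm, ← Nat.mod_add_div (3 * ((81 * j) % 242)) 242, pow_add, pow_mul,
          h242, one_pow, mul_one]
      rw [this, h3]

lemma sol_sub {f g : F → k} (hf : Sol ι f) (hg : Sol ι g) : Sol ι (fun x => f x - g x) := by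
  intro j hj hb
  have : ∀ x, (f x - g x) * ι x ^ j = f x * ι x ^ j - g x * ι x ^ j := fun x => by ring
  simp_rw [this]
  rw [Finset.sum_sub_distrib, hf j hj hb, hg j hj hb, sub_zero]

lemma sol_smul {f : F → k} (hf : Sol ι f) (c : k) : Sol ι (fun x => c * f x) := by
  intro j hj hb
  have : ∀ x, (c * f x) * ι x ^ j = c * (f x * ι x ^ j) := fun x => by ring
  simp_rw [this]
  rw [← Finset.mul_sum, hf j hj hb, mul_zero]

open Classical in
/-- a solution of minimal support is, up to a scalar, fixed by Frobenius -/
lemma exists_frob_fixed (hF : Fintype.card F = 243) (hk : (3 : k) = 0) (K : Finset F) :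
    ∀ n : ℕ, ∀ f : F → k, Sol ι f → (∀ x, x ∉ K → f x = 0) → f ≠ 0 →
      (univ.filter fun x => f x ≠ 0).card ≤ n →
      ∃ f' : F → k, Sol ι f' ∧ (∀ x, x ∉ K → f' x = 0) ∧ f' ≠ 0 ∧ ∀ x, f' x ^ 3 = f' x := by
  intro n
  induction n with
  | zero =>
    intro f _ _ hne hcard
    exfalso
    apply hne
    funext x
    by_contra hx
    have : x ∈ univ.filter fun x => f x ≠ 0 := by simpa using hx
    rw [Nat.le_zero, Finset.card_eq_zero] at hcard
    rw [hcard] at this
    simp at this
  | succ n ih =>
    intro f hf hK hne hcard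
    obtain ⟨x0, hx0⟩ := Function.ne_iff.mp hne
    have hx0' : f x0 ≠ 0 := hx0
    set g : F → k := fun x => (f x0)⁻¹ * f x with hg
    have hgS : Sol ι g := sol_smul ι hf _
    have hg0 : g x0 = 1 := by rw [hg]; exact inv_mul_cancel₀ hx0'
    have hgK : ∀ x, x ∉ K → g x = 0 := by
      intro x hx
      rw [hg]
      simp [hK x hx]
    by_cases hh : (fun x => g x ^ 3 - g x) = 0
    · refine ⟨g, hgS, hgK, ?_, ?_⟩
      · intro h
        rw [h] at hg0
        simp at hg0
      · intro x
        have := congrFun hh x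
        simp only [Pi.zero_apply] at this
        exact sub_eq_zero.mp this
    · refine ih _ (sol_sub ι (sol_frob ι hF hk hgS) hgS) ?_ hh ?_
      · intro x hx
        simp [hgK x hx]
      · have hsub : (univ.filter fun x => g x ^ 3 - g x ≠ 0) ⊂ univ.filter fun x => f x ≠ 0 := by
          rw [Finset.ssubset_iff_of_subset]
          · refine ⟨x0, by simpa using hx0', ?_⟩
            simp [hg0]
          · intro x hx
            simp only [Finset.mem_filter, Finset.mem_univ, true_and] at hx ⊢
            intro h
            apply hx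
            rw [hg]
            simp [h]
        have := Finset.card_lt_card hsub
        omega

theorem card_of_sol (hF : Fintype.card F = 243) (hk : (3 : k) = 0) (K : Finset F)
    (f : F → k) (hf : Sol ι f) (hK : ∀ x, x ∉ K → f x = 0) (hne : f ≠ 0) : 33 ≤ K.card := by
  classical
  obtain ⟨g, hg, hgK, hg0, hg3⟩ := exists_frob_fixed ι hF hk K _ f hf hK hne le_rfl
  have hval : ∀ x, g x = 0 ∨ g x = 1 ∨ g x = -1 := by
    intro x
    have h1 : g x * ((g x - 1) * (g x + 1)) = 0 := by
      have := hg3 x
      linear_combination this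
    rcases mul_eq_zero.mp h1 with h | h
    · exact Or.inl h
    · rcases mul_eq_zero.mp h with h | h
      · exact Or.inr (Or.inl (sub_eq_zero.mp h))
      · exact Or.inr (Or.inr (eq_neg_of_add_eq_zero_left h))
  set w : F → F := fun x => if g x = 0 then 0 else if g x = 1 then 1 else -1 with hw
  have hι : ∀ x, ι (w x) = g x := by
    intro x
    rw [hw]
    simp only
    split_ifs with h1 h2
    · rw [map_zero, h1]
    · rw [map_one, h2]
    · rw [map_neg, map_one]
      rcases hval x with h | h | h
      · exact absurd h h1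
      · exact absurd h h2
      · exact h.symm
  have hword : IsWord w := by
    refine ⟨fun x => ?_, fun j hj hb => ?_⟩
    · apply ι.injective
      rw [map_pow, hι, hg3]
    · apply ι.injective
      rw [map_zero, ← hg j hj hb]
      unfold mu
      rw [map_sum]
      refine Finset.sum_congr rfl fun x _ => ?_
      rw [map_mul, map_pow, hι]
  have hw0 : w ≠ 0 := by
    intro h
    apply hg0
    funext x
    rw [← hι, h]
    simp
  refine (word_bound hF hword hw0).trans (Finset.card_le_card ?_)
  intro x hx
  rw [mem_supp] at hx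
  by_contra h
  apply hx
  apply ι.injective
  rw [hι, hgK x h, map_zero]

end descent

section valuation

open IsLocalRing

/-- a valuation subring of `ℂ` in which `3` is not a unit -/
lemma exists_val : ∃ V : ValuationSubring ℂ, (3 : ℂ) ∈ V.nonunits := by
  let A : Subring ℂ := (Int.castRingHom ℂ).range
  have h3 : (3 : ℂ) ∈ A := ⟨3, by simp⟩
  have hI : Ideal.span {(⟨3, h3⟩ : A)} ≠ ⊤ := by
    rw [Ne, Ideal.span_singleton_eq_top]
    intro hu
    obtain ⟨b, hb⟩ := isUnit_iff_exists_inv.mp hu
    obtain ⟨⟨b, ⟨n, hn⟩⟩, hb'⟩ : ∃ b' : A, b' = b := ⟨b, rfl⟩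
    have h1 := congrArg Subtype.val hb
    rw [← hb'] at h1
    simp only [Subring.coe_mul, Subring.coe_one] at h1
    rw [← hn] at h1
    have h2 : (3 : ℤ) * n = 1 := by
      have : ((3 * n : ℤ) : ℂ) = ((1 : ℤ) : ℂ) := by
        push_cast
        simpa using h1
      exact_mod_cast this
    omega
  obtain ⟨V, -, hV⟩ := Ideal.image_subset_nonunits_valuationSubring _ hI
  exact ⟨V, hV ⟨⟨3, h3⟩, Ideal.subset_span rfl, rfl⟩⟩

lemma three_res {V : ValuationSubring ℂ} (hV : (3 : ℂ) ∈ V.nonunits) :
    (3 : ResidueField V) = 0 := by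
  rw [ValuationSubring.mem_nonunits_iff_exists_mem_maximalIdeal] at hV
  obtain ⟨h3, hm⟩ := hV
  have : residue V (⟨3, h3⟩ : V) = 0 := (residue_eq_zero_iff _).mpr hm
  have h2 : (⟨3, h3⟩ : V) = (3 : V) := by
    apply Subtype.ext
    rfl
  rw [h2, map_ofNat] at this
  exact this

lemma root_mem {V : ValuationSubring ℂ} {z : ℂ} {n : ℕ} (hn : n ≠ 0) (hz : z ^ n = 1) :
    z ∈ V := by
  rw [← ValuationSubring.valuation_le_one_iff]
  have h : V.valuation z ^ n = 1 := by rw [← map_pow, hz, map_one]
  exact ((pow_eq_one_iff.mp h).resolve_right hn).le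

/-- the residue field is algebraically closed -/
instance (V : ValuationSubring ℂ) : IsAlgClosed (ResidueField V) := by
  apply IsAlgClosed.of_exists_root
  intro p hp hirr
  have hlift : p ∈ Polynomial.lifts (residue V) := by
    rw [Polynomial.lifts_iff_coeff_lifts]
    intro n
    exact residue_surjective _
  obtain ⟨q, hq, hdeg, hmon⟩ := Polynomial.lifts_and_degree_eq_and_monic hlift hp
  have hdeg' : (q.map (algebraMap V ℂ)).degree ≠ 0 := by
    rw [hmon.degree_map, hdeg]
    exact (Polynomial.degree_pos_of_irreducible hirr).ne'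
  obtain ⟨z, hz⟩ := IsAlgClosed.exists_root (q.map (algebraMap V ℂ)) hdeg'
  have hint : IsIntegral V z := ⟨q, hmon, by
    rw [Polynomial.IsRoot.def, Polynomial.eval_map] at hz
    exact hz⟩
  obtain ⟨y, hy⟩ := IsIntegrallyClosed.isIntegral_iff.mp hint
  refine ⟨residue V y, ?_⟩
  have h1 : q.eval y = 0 := by
    apply IsFractionRing.injective V ℂ
    rw [Polynomial.IsRoot.def, ← hy, Polynomial.eval_map, Polynomial.eval₂_at_apply] at hz
    rw [hz, map_zero]
  rw [← hq, Polynomial.eval_map, Polynomial.eval₂_at_apply, h1, map_zero]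

end valuation

end H30.Paley
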