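import Pool.Agent.H30.Paley.Words

/-!
# Stickelberger's congruence for the field with `243` elements

`B` is a domain with a local homomorphism `res` to a field `k`, `χ` is a Teichmüller character
with values in `B`.  We show that the Gauss sum of `χ⁻ʲ` is a unit times `(1-ω)^{s(j)}`, and
deduce that a linear relation between the columns of the Paley frame reduces to a function with
vanishing `T₀`-moments.
-/

set_option linter.unusedSectionVars false

namespace H30.Paley

open Finset

/-- digit sum (base `3`, first `n` digits) -/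
def ds : ℕ → ℕ → ℕ
  | 0, _ => 0
  | n + 1, j => j % 3 + ds n (j / 3)

section powersums

variable {F : Type*} [Field F] [Fintype F] [DecidableEq F]

lemma sum_pow (hF : Fintype.card F = 243) [CharP F 3] (m : ℕ) (hm : 0 < m) :
    ∑ x : F, x ^ m = if 242 ∣ m then -1 else 0 := by
  have h1 : ∑ x : F, x ^ m = ∑ x : Fˣ, ((x : F) ^ m) := by
    rw [← Finset.sum_subset (Finset.subset_univ (univ.filter fun x : F => x ≠ 0))]
    · refine (Finset.sum_bij (fun (x : Fˣ) _ => (x : F)) ?_ ?_ ?_ ?_).symm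
      · intro a _
        simp
      · intro a _ b _ h
        exact Units.ext h
      · intro b hb
        simp only [Finset.mem_filter, Finset.mem_univ, true_and] at hb
        exact ⟨Units.mk0 b hb, Finset.mem_univ _, rfl⟩
      · intro a _
        rfl
    · intro x _ hx
      simp only [Finset.mem_filter, Finset.mem_univ, true_and, not_not] at hx
      rw [hx, zero_pow hm.ne']
  rw [h1]
  have := FiniteField.sum_pow_units F m
  rw [hF] at this
  rw [← this]

lemma three_eq_zero (F : Type*) [Ring F] [CharP F 3] : (3 : F) = 0 := by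
  have := CharP.cast_eq_zero F 3
  exact_mod_cast this

/-- `(1-x)^241 = ∑ (i+1) x^i` on a field with `243` elements -/
lemma one_sub_pow (hF : Fintype.card F = 243) [CharP F 3] (x : F) :
    (1 - x) ^ 241 = ∑ i ∈ range 242, ((i + 1 : ℕ) : F) * x ^ i := by
  have h3 := three_eq_zero F
  have hx : x ^ 243 = x := by
    have := FiniteField.pow_card x
    rwa [hF] at this
  have gen : ∀ n : ℕ, (1 - x) ^ 2 * ∑ i ∈ range (n + 1), ((i + 1 : ℕ) : F) * x ^ i =
      1 - ((n + 2 : ℕ) : F) * x ^ (n + 1) + ((n + 1 : ℕ) : F) * x ^ (n + 2) := by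
    intro n
    induction n with
    | zero => simp; ring
    | succ n ih =>
      rw [Finset.sum_range_succ, mul_add, ih]
      push_cast
      ring
  by_cases h1 : x = 1
  · subst h1
    simp only [sub_self, one_pow, mul_one]
    rw [zero_pow (by norm_num), ← Nat.cast_sum]
    have : ∑ i ∈ range 242, (i + 1) = 3 * 9801 := by decide +kernel
    rw [this]
    exact ((CharP.cast_eq_zero_iff F 3 _).mpr (by norm_num)).symm
  · have h2 : (1 - x) ≠ 0 := sub_ne_zero.mpr (Ne.symm h1)
    have h4 : (1 - x) ^ 2 ≠ 0 := pow_ne_zero _ h2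
    apply mul_left_cancel₀ h4
    rw [gen 241, ← pow_add]
    have h5 : (1 - x) ^ (2 + 241) = 1 - x := by
      have := FiniteField.pow_card (1 - x)
      rwa [hF] at this
    rw [h5]
    have h6 : ((241 + 2 : ℕ) : F) = 0 := (CharP.cast_eq_zero_iff F 3 _).mpr (by norm_num)
    have h7 : ((241 + 1 : ℕ) : F) = -1 := by
      have : ((241 + 1 : ℕ) : F) + 1 = ((241 + 2 : ℕ) : F) := by push_cast; ring
      rw [h6] at this
      linear_combination this
    rw [h6, h7, show 241 + 2 = 243 by norm_num, hx]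
    ring

/-- the reduction of the Jacobi sum -/
lemma jac_aux (hF : Fintype.card F = 243) [CharP F 3] (a : ℕ) (ha : 1 ≤ a) (ha' : a ≤ 240) :
    ∑ x : F, x⁻¹ ^ a * (1 - x)⁻¹ = -((a + 1 : ℕ) : F) := by
  have hinv : ∀ x : F, x⁻¹ = x ^ 241 := by
    intro x
    by_cases hx : x = 0
    · subst hx; simp
    · have h := FiniteField.pow_card_sub_one_eq_one x hx
      rw [hF] at h
      have h2 : x * x ^ 241 = 1 := by
        rw [← pow_succ']; exact h
      exact (eq_inv_of_mul_eq_one_right h2).symm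
  have h1 : ∀ x : F, x⁻¹ ^ a * (1 - x)⁻¹ =
      ∑ i ∈ range 242, ((i + 1 : ℕ) : F) * x ^ (241 * a + i) := by
    intro x
    rw [hinv (1 - x), one_sub_pow hF, hinv x, ← pow_mul, Finset.mul_sum]
    refine Finset.sum_congr rfl fun i _ => ?_
    rw [pow_add]
    ring
  simp_rw [h1]
  rw [Finset.sum_comm]
  simp_rw [← Finset.mul_sum]
  rw [Finset.sum_eq_single a]
  · rw [sum_pow hF _ (by omega), if_pos (by omega)]
    ring
  · intro i hi hne
    have hi' := Finset.mem_range.mp hi
    rw [sum_pow hF _ (by omega), if_neg (by omega), mul_zero]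
  · intro h
    exact absurd (Finset.mem_range.mpr (by omega)) h

end powersums

section abstract_stickelberger

variable {F : Type*} [Field F] [Fintype F] [DecidableEq F] [CharP F 3] [Algebra (ZMod 3) F]
variable {B k : Type*} [CommRing B] [IsDomain B] [Field k]

/-- the value of the trace, as a natural number `0, 1, 2` -/
noncomputable def tval (x : F) : ℕ := (Algebra.trace (ZMod 3) F x).val

/-- the additive character `x ↦ ω ^ Tr x` -/
noncomputable def psiB (ω : B) (hω : ω ^ 3 = 1) : AddChar F B :=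
  (AddChar.zmodChar 3 hω).compAddMonoidHom (Algebra.trace (ZMod 3) F).toAddMonoidHom

omit [Fintype F] [DecidableEq F] [CharP F 3] [IsDomain B] in
lemma psiB_apply (ω : B) (hω : ω ^ 3 = 1) (x : F) : psiB (F := F) ω hω x = ω ^ tval x := by
  unfold psiB tval
  rw [AddChar.compAddMonoidHom_apply]
  exact AddChar.zmodChar_apply hω _

omit [DecidableEq F] [CharP F 3] in
lemma finrank_five (hF : Fintype.card F = 243) : Module.finrank (ZMod 3) F = 5 := by
  have h := Module.card_eq_pow_finrank (K := ZMod 3) (V := F)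
  rw [hF, ZMod.card] at h
  have h2 : (3 : ℕ) ^ 5 = 3 ^ Module.finrank (ZMod 3) F := by rw [← h]; norm_num
  exact (Nat.pow_right_injective (le_refl 2 |>.trans (by norm_num)) h2).symm

omit [DecidableEq F] [CharP F 3] in
lemma tval_cast (hF : Fintype.card F = 243) (x : F) :
    ((tval x : ℕ) : F) = ∑ i ∈ range 5, x ^ 3 ^ i := by
  have h := FiniteField.algebraMap_trace_eq_sum_pow (ZMod 3) F x
  rw [finrank_five hF, Nat.card_eq_fintype_card, ZMod.card] at h
  rw [← h]
  unfold tval
  conv_rhs => rw [← ZMod.natCast_zmod_val (Algebra.trace (ZMod 3) F x)]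
  rw [map_natCast]

lemma tval_frob (hF : Fintype.card F = 243) (x : F) : tval (x ^ 3) = tval x := by
  unfold tval
  have h1 : algebraMap (ZMod 3) F (Algebra.trace (ZMod 3) F (x ^ 3)) =
      algebraMap (ZMod 3) F (Algebra.trace (ZMod 3) F x) := by
    rw [FiniteField.algebraMap_trace_eq_sum_pow, FiniteField.algebraMap_trace_eq_sum_pow,
      finrank_five hF, Nat.card_eq_fintype_card, ZMod.card]
    have hx : x ^ 243 = x := by
      have := FiniteField.pow_card x
      rwa [hF] at this
    simp only [Finset.sum_range_succ, Finset.sum_range_zero, zero_add]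
    norm_num
    rw [← pow_mul, ← pow_mul, ← pow_mul, ← pow_mul]
    norm_num
    rw [hx]
    ring
  rw [(algebraMap (ZMod 3) F).injective h1]

variable (res : B →+* k) (ι : F →+* k) (χ : MulChar F B)
  (hχ : ∀ x, res (χ x) = ι x) (ω : B) (hω3 : ω ^ 3 = 1)

include hχ in
lemma res_inv (x : F) : res (χ⁻¹ x) = ι x⁻¹ := by
  rw [MulChar.inv_apply', hχ]

include hχ in
lemma res_inv_pow {j : ℕ} (hj : j ≠ 0) (x : F) : res ((χ⁻¹ ^ j) x) = ι (x⁻¹ ^ j) := by
  rw [MulChar.pow_apply' _ hj, map_pow, res_inv res ι χ hχ, map_pow]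

include hχ in
lemma pow_ne_one (hF : Fintype.card F = 243) {j : ℕ} (hj : ¬ 242 ∣ j) : χ⁻¹ ^ j ≠ 1 := by
  intro h
  apply hj
  have h1 := (FiniteField.forall_pow_eq_one_iff F j).mp (by
    intro x
    have h2 : (χ⁻¹ ^ j) ((x⁻¹ : Fˣ) : F) = 1 := by
      rw [h, MulChar.one_apply_coe]
    have hj0 : j ≠ 0 := by
      rintro rfl
      exact hj (dvd_zero _)
    have h3 := res_inv_pow res ι χ hχ hj0 ((x⁻¹ : Fˣ) : F)
    rw [h2, map_one] at h3
    have h4 : (((x⁻¹ : Fˣ) : F))⁻¹ ^ j = 1 := by
      apply ι.injective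
      rw [← h3, map_one]
    rw [← Units.val_inv_eq_inv_val, inv_inv] at h4
    exact Units.ext (by push_cast; exact h4))
  rw [hF] at h1
  exact h1

lemma pow_242 (hF : Fintype.card F = 243) : χ⁻¹ ^ 242 = 1 := by
  have h := MulChar.pow_card_eq_one (χ⁻¹)
  have h2 : Fintype.card Fˣ = 242 := by
    rw [Fintype.card_units, hF]
  rwa [h2] at h

/-- the Gauss sums -/
noncomputable def G (j : ℕ) : B := gaussSum (χ⁻¹ ^ j) (psiB (F := F) ω hω3)

lemma G_frob (hF : Fintype.card F = 243) (j : ℕ) : G χ ω hω3 (3 * j) = G χ ω hω3 j := by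
  unfold G gaussSum
  have : Fact (Nat.Prime 3) := ⟨Nat.prime_three⟩
  rw [← (frobeniusEquiv F 3).toEquiv.sum_comp
    (fun x => (χ⁻¹ ^ j) x * (psiB (F := F) ω hω3) x)]
  refine Finset.sum_congr rfl fun x _ => ?_
  have h1 : (frobeniusEquiv F 3).toEquiv x = x ^ 3 := rfl
  rw [h1, psiB_apply, psiB_apply, tval_frob hF, map_pow]
  congr 1
  by_cases hx : IsUnit x
  · obtain ⟨u, rfl⟩ := hx
    rw [MulChar.pow_apply_coe, MulChar.pow_apply_coe, ← pow_mul, mul_comm]
  · rw [MulChar.map_nonunit _ hx, MulChar.map_nonunit _ hx]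
    simp

omit [DecidableEq F] [CharP F 3] [Fintype F] [Algebra (ZMod 3) F] in
lemma three_ne (h3 : (3 : B) ≠ 0) (hω : 1 + ω + ω ^ 2 = 0) : ω ≠ 1 := by
  rintro rfl
  apply h3
  linear_combination hω

include hω3 in
lemma res_pi (hk : (3 : k) = 0) (hω : 1 + ω + ω ^ 2 = 0) : res (1 - ω) = 0 := by
  have h1 : res (1 - ω) ^ 2 = 0 := by
    rw [← map_pow]
    have : (1 - ω) ^ 2 = -3 * ω := by linear_combination hω
    rw [this, map_mul, map_neg]
    have h2 : res (3 : B) = 0 := by rw [map_ofNat]; exact hk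
    rw [h2, neg_zero, zero_mul]
  exact pow_eq_zero_iff (by norm_num) |>.mp h1

lemma G_zero (h3 : (3 : B) ≠ 0) (hω : 1 + ω + ω ^ 2 = 0) : G χ ω hω3 0 = -1 := by
  unfold G
  rw [pow_zero]
  apply gaussSum_one_left
  intro h
  obtain ⟨x, hx⟩ := Algebra.trace_surjective (ZMod 3) F 1
  have h1 : psiB (F := F) ω hω3 x = 1 := by rw [h]; rfl
  rw [psiB_apply] at h1
  have h2 : tval x = 1 := by
    unfold tval
    rw [hx]
    rfl
  rw [h2, pow_one] at h1
  exact three_ne ω h3 hω h1

lemma tval_lt (x : F) : tval x < 3 := ZMod.val_lt _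

lemma omega_pow (t : ℕ) (ht : t < 3) :
    ω ^ t = 1 - (t : B) * (1 - ω) + ((t.choose 2 : ℕ) : B) * (1 - ω) ^ 2 := by
  interval_cases t
  · simp
  · simp
  · simp; ring

include hχ in
lemma G_one (hF : Fintype.card F = 243) (hk : (3 : k) = 0)
    (hω : 1 + ω + ω ^ 2 = 0) (hres : ∀ b, res b ≠ 0 → IsUnit b) :
    ∃ u : B, IsUnit u ∧ G χ ω hω3 1 = u * (1 - ω) := by
  have hχ1 : (χ⁻¹ : MulChar F B) ≠ 1 := by
    have := pow_ne_one res ι χ hχ hF (j := 1) (by norm_num)
    rwa [pow_one] at this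
  have hsum : ∑ x, χ⁻¹ x = 0 := MulChar.sum_eq_zero_of_ne_one hχ1
  set W : B := - ∑ x, χ⁻¹ x * (tval x : B) +
    (1 - ω) * ∑ x, χ⁻¹ x * (((tval x).choose 2 : ℕ) : B) with hW
  refine ⟨W, ?_, ?_⟩
  · apply hres
    have h1 : res W = 1 := by
      rw [hW, map_add, map_mul, res_pi res ω hω3 hk hω, zero_mul, add_zero, map_neg, map_sum]
      have h2 : ∀ x : F, res (χ⁻¹ x * (tval x : B)) = ι (∑ i ∈ range 5, x ^ (241 + 3 ^ i)) := by
        intro x
        rw [map_mul, res_inv res ι χ hχ, map_natCast, ← map_natCast ι, ← map_mul,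
          tval_cast hF, Finset.mul_sum]
        congr 1
        refine Finset.sum_congr rfl fun i _ => ?_
        rw [pow_add]
        congr 1
        by_cases hx : x = 0
        · subst hx; simp
        · have h := FiniteField.pow_card_sub_one_eq_one x hx
          rw [hF] at h
          have h2 : x * x ^ 241 = 1 := by
            rw [← pow_succ']; exact h
          exact (eq_inv_of_mul_eq_one_right h2).symm
      simp_rw [h2]
      rw [← map_sum, Finset.sum_comm]
      have h3 : ∑ i ∈ range 5, ∑ x : F, x ^ (241 + 3 ^ i) = -1 := by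
        simp only [Finset.sum_range_succ, Finset.sum_range_zero, zero_add]
        rw [sum_pow hF _ (by norm_num), sum_pow hF _ (by norm_num), sum_pow hF _ (by norm_num),
          sum_pow hF _ (by norm_num), sum_pow hF _ (by norm_num)]
        norm_num
      rw [h3, map_neg, map_one, neg_neg]
    rw [h1]
    exact one_ne_zero
  · unfold G gaussSum
    rw [pow_one]
    have h1 : ∀ x : F, χ⁻¹ x * (psiB (F := F) ω hω3) x = χ⁻¹ x -
        χ⁻¹ x * (tval x : B) * (1 - ω) +
          χ⁻¹ x * (((tval x).choose 2 : ℕ) : B) * (1 - ω) ^ 2 := by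
      intro x
      rw [psiB_apply, omega_pow ω _ (tval_lt x)]
      ring
    simp_rw [h1]
    rw [Finset.sum_add_distrib, Finset.sum_sub_distrib, hsum, ← Finset.sum_mul, ← Finset.sum_mul,
      hW]
    ring

include hχ in
lemma jac_unit (hF : Fintype.card F = 243) (hres : ∀ b, res b ≠ 0 → IsUnit b)
    {j : ℕ} (hj : 2 ≤ j) (hj' : j ≤ 241) (h3 : ¬ 3 ∣ j) :
    IsUnit (jacobiSum (χ⁻¹ ^ (j - 1)) χ⁻¹) := by
  apply hres
  unfold jacobiSum
  rw [map_sum]
  have h1 : ∀ x : F, res ((χ⁻¹ ^ (j - 1)) x * χ⁻¹ (1 - x)) = ι (x⁻¹ ^ (j - 1) * (1 - x)⁻¹) := by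
    intro x
    rw [map_mul, res_inv_pow res ι χ hχ (by omega), res_inv res ι χ hχ, ← map_mul]
  simp_rw [h1]
  rw [← map_sum, jac_aux hF (j - 1) (by omega) (by omega)]
  intro h
  have h2 : -((j - 1 + 1 : ℕ) : F) = 0 := ι.injective (by rw [h, map_zero])
  rw [neg_eq_zero, show j - 1 + 1 = j by omega] at h2
  exact h3 ((CharP.cast_eq_zero_iff F 3 j).mp h2)

include hχ in
/-- Stickelberger: the Gauss sum is a unit times `(1-ω)^{digit sum}` -/
theorem stick (hF : Fintype.card F = 243) (hk : (3 : k) = 0) (h3 : (3 : B) ≠ 0)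
    (hω : 1 + ω + ω ^ 2 = 0) (hres : ∀ b, res b ≠ 0 → IsUnit b) :
    ∀ j : ℕ, j < 242 → ∃ u : B, IsUnit u ∧ G χ ω hω3 j = u * (1 - ω) ^ ds 5 j := by
  intro j
  induction j using Nat.strong_induction_on with
  | _ j ih =>
    intro hj
    by_cases h0 : j = 0
    · subst h0
      refine ⟨-1, isUnit_one.neg, ?_⟩
      rw [G_zero χ ω hω3 h3 hω]
      simp [ds]
    by_cases hd : 3 ∣ j
    · obtain ⟨m, rfl⟩ := hd
      obtain ⟨u, hu, h⟩ := ih m (by omega) (by omega)
      refine ⟨u, hu, ?_⟩
      rw [G_frob χ ω hω3 hF, h]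
      congr 2
      have hm : m < 81 := by omega
      clear * - hm
      have : ((List.range 81).all fun m => ds 5 m == ds 5 (3 * m)) = true := by decide +kernel
      rw [List.all_eq_true] at this
      have := this m (List.mem_range.mpr hm)
      simpa using this
    · by_cases h1 : j = 1
      · subst h1
        obtain ⟨u, hu, h⟩ := G_one res ι χ hχ ω hω3 hF hk hω hres
        refine ⟨u, hu, ?_⟩
        rw [h]
        have : ds 5 1 = 1 := by decide
        rw [this, pow_one]
      · obtain ⟨u, hu, h⟩ := ih (j - 1) (by omega) (by omega)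
        obtain ⟨v, hv, h'⟩ := G_one res ι χ hχ ω hω3 hF hk hω hres
        have hJ := jac_unit res ι χ hχ hF hres (j := j) (by omega) (by omega) hd
        have hne : (χ⁻¹ ^ (j - 1)) * χ⁻¹ ≠ 1 := by
          rw [← pow_succ, show j - 1 + 1 = j by omega]
          exact pow_ne_one res ι χ hχ hF (by omega)
        have hmul := jacobiSum_mul_nontrivial hne (psiB (F := F) ω hω3)
        rw [← pow_succ, show j - 1 + 1 = j by omega] at hmul
        have e1 : gaussSum (χ⁻¹ ^ j) (psiB (F := F) ω hω3) = G χ ω hω3 j := rfl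
        have e2 : gaussSum (χ⁻¹ ^ (j - 1)) (psiB (F := F) ω hω3) = G χ ω hω3 (j - 1) := rfl
        have e3 : gaussSum χ⁻¹ (psiB (F := F) ω hω3) = G χ ω hω3 1 := by
          unfold G; rw [pow_one]
        rw [e1, e2, e3, h, h'] at hmul
        obtain ⟨J, hJe⟩ := hJ
        refine ⟨u * v * (J⁻¹ : Bˣ), (hu.mul hv).mul (Units.isUnit _), ?_⟩
        rw [← hJe] at hmul
        have hds : ds 5 j = ds 5 (j - 1) + 1 := by
          have : ((List.range 243).all fun j => j == 0 || j % 3 == 0 ||
            ds 5 j == ds 5 (j - 1) + 1) = true := by decide +kernel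
          rw [List.all_eq_true] at this
          have := this j (List.mem_range.mpr (by omega))
          simp only [Bool.or_eq_true, beq_iff_eq] at this
          omega
        calc G χ ω hω3 j = G χ ω hω3 j * J * (J⁻¹ : Bˣ) := by
              rw [mul_assoc, Units.mul_inv, mul_one]
          _ = u * (1 - ω) ^ ds 5 (j - 1) * (v * (1 - ω)) * (J⁻¹ : Bˣ) := by rw [hmul]
          _ = _ := by rw [hds, pow_succ]; ring

end abstract_stickelberger

end H30.Paley
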