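import Pool.Agent.H30.Paley.Descent

/-!
# Any `32` columns of the Paley frame of order `243` are linearly independent
-/

set_option linter.unusedSectionVars false

namespace H30.Paley

open Finset IsLocalRing

/-- main theorem: a function on the field with `243` elements, all of whose twisted sums over the
squares vanish, is zero or has support of size at least `33` -/
theorem main_bound {F : Type*} [Field F] [Fintype F] [Algebra (ZMod 3) F]
    (hF : Fintype.card F = 243) (ψ : F → ℂ)
    (hψ : ∀ x, ψ x = Complex.exp (2 * Real.pi * Complex.I / 3) ^ tval x)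
    (g : F → ℂ) (hne : g ≠ 0) (K : Finset F) (hK : ∀ x, x ∉ K → g x = 0)
    (hg : ∀ a : F, a ≠ 0 → IsSquare a → ∑ x, g x * ψ (a * x) = 0) : 33 ≤ K.card := by
  classical
  have : CharP F 3 := charP_of_injective_algebraMap (algebraMap (ZMod 3) F).injective 3
  obtain ⟨V, hV⟩ := exists_val
  have hk : (3 : ResidueField V) = 0 := three_res hV
  have hkch : CharP (ResidueField V) 3 :=
    (CharP.charP_iff_prime_eq_zero Nat.prime_three).mpr (by exact_mod_cast hk)
  let _ : Algebra (ZMod 3) (ResidueField V) := ZMod.algebra _ 3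
  have : Algebra.IsAlgebraic (ZMod 3) F := Algebra.IsAlgebraic.of_finite _ _
  let ι : F →+* ResidueField V := (IsAlgClosed.lift (R := ZMod 3) : F →ₐ[ZMod 3] ResidueField V)
  let res : V →+* ResidueField V := residue V
  have hres : ∀ b, res b ≠ 0 → IsUnit b := fun b hb => residue_ne_zero_iff_isUnit b |>.mp hb
  -- the cube root of unity
  set w : ℂ := Complex.exp (2 * Real.pi * Complex.I / 3) with hw
  have hprim3 : IsPrimitiveRoot w 3 := by
    have := Complex.isPrimitiveRoot_exp 3 (by norm_num)
    simpa using this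
  have hw3 : w ^ 3 = 1 := hprim3.pow_eq_one
  have hwV : w ∈ V := root_mem (n := 3) (by norm_num) hw3
  let ω : V := ⟨w, hwV⟩
  have hω3 : ω ^ 3 = 1 := Subtype.ext (by simpa using hw3)
  have hωsum : 1 + ω + ω ^ 2 = 0 := by
    apply Subtype.ext
    have h1 : w ≠ 1 := hprim3.ne_one (by norm_num)
    have h2 : (w - 1) * (1 + w + w ^ 2) = 0 := by linear_combination hw3
    have h3 := (mul_eq_zero.mp h2).resolve_left (sub_ne_zero.mpr h1)
    simpa using h3
  have h3V : (3 : V) ≠ 0 := by
    intro h
    have := congrArg Subtype.val h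
    norm_num at this
  -- the Teichmüller character
  have hζ := Complex.isPrimitiveRoot_exp 242 (by norm_num)
  set z : ℂ := Complex.exp (2 * Real.pi * Complex.I / (242 : ℕ)) with hz
  have hzV : z ∈ V := root_mem (n := 242) (by norm_num) hζ.pow_eq_one
  have hζV : IsPrimitiveRoot (⟨z, hzV⟩ : V) 242 := by
    have hinj : Function.Injective (algebraMap V ℂ) := IsFractionRing.injective V ℂ
    exact IsPrimitiveRoot.of_map_of_injective (f := algebraMap V ℂ) hζ hinj
  obtain ⟨γ, hγ⟩ := IsCyclic.exists_generator (α := Fˣ)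
  have hcardU : Fintype.card Fˣ = 242 := by rw [Fintype.card_units, hF]
  have hprod := Polynomial.X_pow_sub_one_eq_prod (by norm_num : 0 < 242) hζV
  have hγ1 : (ι (γ : F)) ^ 242 = 1 := by
    rw [← map_pow, ← Units.val_pow_eq_pow_val, ← hcardU, pow_card_eq_one, Units.val_one, map_one]
  obtain ⟨c, hc, hcι⟩ : ∃ c : V, c ^ 242 = 1 ∧ res c = ι (γ : F) := by
    have h1 := congrArg (fun p => (p.map res).eval (ι (γ : F))) hprod
    simp only [Polynomial.map_sub, Polynomial.map_pow, Polynomial.map_X, Polynomial.map_one,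
      Polynomial.eval_sub, Polynomial.eval_pow, Polynomial.eval_X, Polynomial.eval_one,
      Polynomial.map_prod, Polynomial.eval_prod, Polynomial.map_C, Polynomial.eval_C] at h1
    rw [hγ1, sub_self] at h1
    obtain ⟨c, hc, hc2⟩ := Finset.prod_eq_zero_iff.mp h1.symm
    refine ⟨c, (Polynomial.mem_nthRootsFinset (by norm_num) _).mp hc, (sub_eq_zero.mp hc2).symm⟩
  let cu : Vˣ := Units.mkOfMulEqOne c (c ^ 241) (by rw [← pow_succ']; exact hc)
  have hcu : cu ∈ rootsOfUnity (Fintype.card Fˣ) V := by
    rw [mem_rootsOfUnity, hcardU]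
    apply Units.ext
    push_cast
    exact hc
  let χ : MulChar F V := MulChar.ofRootOfUnity hcu hγ
  have hχγ : χ (γ : F) = c := MulChar.ofRootOfUnity_spec hcu hγ
  have hχ : ∀ x, res (χ x) = ι x := by
    intro x
    by_cases hx : x = 0
    · subst hx
      rw [MulChar.map_zero, map_zero, map_zero]
    · obtain ⟨n, hn⟩ := (Submonoid.mem_powers_iff _ _).mp
        ((mem_powers_iff_mem_zpowers (x := γ) (y := Units.mk0 x hx)).mpr (hγ _))
      have hx2 : x = (γ : F) ^ n := by
        rw [← Units.val_pow_eq_pow_val, hn]; rfl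
      rw [hx2, map_pow, map_pow, map_pow, hχγ, hcι]
  -- scale the relation
  obtain ⟨x0, -, hmax⟩ := Finset.exists_max_image univ (fun x => V.valuation (g x))
    ⟨0, Finset.mem_univ _⟩
  obtain ⟨x1, hx1⟩ := Function.ne_iff.mp hne
  have hg0 : g x0 ≠ 0 := by
    intro h
    have h1 := hmax x1 (Finset.mem_univ _)
    rw [h, map_zero] at h1
    have h2 : V.valuation (g x1) = 0 := le_antisymm h1 zero_le'
    exact hx1 ((Valuation.zero_iff _).mp h2)
  have hmem : ∀ x, g x / g x0 ∈ V := by
    intro x
    rw [← ValuationSubring.valuation_le_one_iff, map_div₀]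
    have hpos : (0 : V.ValueGroup) < V.valuation (g x0) := by
      rw [zero_lt_iff]
      exact (Valuation.ne_zero_iff _).mpr hg0
    exact (div_le_one₀ hpos).mpr (hmax x (Finset.mem_univ _))
  let g' : F → V := fun x => ⟨g x / g x0, hmem x⟩
  have hg' : ∀ a : F, a ≠ 0 → IsSquare a → ∑ x, g' x * psiB (F := F) ω hω3 (a * x) = 0 := by
    intro a ha hsq
    apply Subtype.ext
    have h1 : ((∑ x, g' x * psiB (F := F) ω hω3 (a * x) : V) : ℂ) =
        (∑ x, g x * ψ (a * x)) / g x0 := by
      rw [Finset.sum_div, AddSubmonoidClass.coe_finset_sum]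
      refine Finset.sum_congr rfl fun x _ => ?_
      rw [psiB_apply, hψ]
      change g x / g x0 * ((ω ^ tval (a * x) : V) : ℂ) = _
      rw [SubmonoidClass.coe_pow]
      ring
    rw [h1, hg a ha hsq, zero_div]
    rfl
  refine card_of_sol ι hF hk K (fun x => res (g' x)) ?_ ?_ ?_
  · intro j hj hb
    exact reduce res ι χ hχ ω hω3 hF hk h3V hωsum hres g' hg' hj hb
  · intro x hx
    have : g' x = 0 := Subtype.ext (by simp [g', hK x hx])
    rw [this, map_zero]
  · intro h
    have h1 := congrFun h x0
    have h2 : g' x0 = 1 := Subtype.ext (by simp [g', hg0])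
    simp only [h2, map_one, Pi.zero_apply] at h1
    exact one_ne_zero h1

end H30.Paley
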