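import Pool.Agent.H30.Paley.Gauss

/-!
# Reduction of linear relations between the columns of the Paley frame
-/

set_option linter.unusedSectionVars false

namespace H30.Paley

open Finset

variable {F : Type*} [Field F] [Fintype F] [DecidableEq F] [CharP F 3] [Algebra (ZMod 3) F]
variable {B k : Type*} [CommRing B] [IsDomain B] [Field k]
variable (res : B →+* k) (ι : F →+* k) (χ : MulChar F B)
  (hχ : ∀ x, res (χ x) = ι x) (ω : B) (hω3 : ω ^ 3 = 1)

lemma t0_facts : ((List.range 243).all fun j => !(t0mask.testBit j) ||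
    (decide (j < 242) && decide (j ≠ 121) && decide (ds 5 j < ds 5 ((j + 121) % 242)))) = true := by
  decide +kernel

lemma t0_facts' {j : ℕ} (hj : j < 243) (hb : t0mask.testBit j = true) :
    j < 242 ∧ j ≠ 121 ∧ ds 5 j < ds 5 ((j + 121) % 242) := by
  have h := t0_facts
  rw [List.all_eq_true] at h
  have := h j (List.mem_range.mpr hj)
  rw [hb] at this
  simpa [and_assoc] using this

/-- twisted Gauss sum -/
lemma shift_gauss (m : ℕ) (x : F) (hx : x ≠ 0) :
    ∑ a : F, (χ⁻¹ ^ m) a * psiB (F := F) ω hω3 (a * x) = (χ ^ m) x * G χ ω hω3 m := by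
  have h := gaussSum_mulShift_eq (χ⁻¹ ^ m) (psiB (F := F) ω hω3) (Units.mk0 x hx)
  unfold gaussSum at h
  simp only [AddChar.mulShift_apply, Units.val_mk0] at h
  have h2 : (χ⁻¹ ^ m)⁻¹ = χ ^ m := by rw [inv_pow, inv_inv]
  rw [h2] at h
  unfold G gaussSum
  rw [← h]
  refine Finset.sum_congr rfl fun a _ => ?_
  rw [mul_comm a x]

include hχ in
lemma shift_gauss' (hF : Fintype.card F = 243) {m : ℕ} (hm : ¬ 242 ∣ m) (x : F) :
    ∑ a : F, (χ⁻¹ ^ m) a * psiB (F := F) ω hω3 (a * x) = (χ ^ m) x * G χ ω hω3 m := by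
  by_cases hx : x = 0
  · subst hx
    rw [MulChar.map_zero, zero_mul]
    simp only [mul_zero, AddChar.map_zero_eq_one, mul_one]
    exact MulChar.sum_eq_zero_of_ne_one (pow_ne_one res ι χ hχ hF hm)
  · exact shift_gauss χ ω hω3 m x hx

lemma G_mod (hF : Fintype.card F = 243) (m : ℕ) : G χ ω hω3 m = G χ ω hω3 (m % 242) := by
  unfold G
  congr 1
  conv_lhs => rw [← Nat.mod_add_div m 242, pow_add, pow_mul, pow_242 χ hF, one_pow, mul_one]

include hχ in
/-- on nonsquares `χ⁻¹ ^ 121 = -1` -/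
lemma quad_nonsq (hF : Fintype.card F = 243) (hk : (3 : k) = 0) {a : F} (ha : a ≠ 0)
    (hsq : ¬ IsSquare a) : (χ⁻¹ ^ 121) a = -1 := by
  have h1 : ((χ⁻¹ ^ 121) a) ^ 2 = 1 := by
    rw [← MulChar.pow_apply' _ (by norm_num), ← pow_mul, show 121 * 2 = 242 by norm_num,
      pow_242 χ hF]
    exact MulChar.one_apply (IsUnit.mk0 a ha)
  have h2 : res ((χ⁻¹ ^ 121) a) = -1 := by
    rw [res_inv_pow res ι χ hχ (by norm_num)]
    have h3 : a ^ 121 = -1 := by
      have hF2 : ringChar F ≠ 2 := by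
        have : ringChar F = 3 := ringChar.eq F 3
        rw [this]; norm_num
      rcases FiniteField.pow_dichotomy hF2 ha with h | h
      · exfalso
        apply hsq
        exact (FiniteField.isSquare_iff hF2 ha).mpr h
      · rw [hF] at h
        exact h
    rw [inv_pow, h3]
    simp
  rcases sq_eq_one_iff.mp h1 with h | h
  · exfalso
    rw [h, map_one] at h2
    have : (2 : k) = 0 := by linear_combination h2
    have h4 : (1 : k) = 0 := by linear_combination hk - this
    exact one_ne_zero h4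
  · exact h

include hχ in
/-- the two character sums attached to a relation on the squares cancel -/
lemma rel_zero (hF : Fintype.card F = 243) (hk : (3 : k) = 0) (g : F → B)
    (hg : ∀ a : F, a ≠ 0 → IsSquare a → ∑ x, g x * psiB (F := F) ω hω3 (a * x) = 0) (j : ℕ) :
    ∑ x, g x * (∑ a : F, (χ⁻¹ ^ j) a * psiB (F := F) ω hω3 (a * x) +
      ∑ a : F, (χ⁻¹ ^ (j + 121)) a * psiB (F := F) ω hω3 (a * x)) = 0 := by
  have h1 : ∀ x, g x * (∑ a : F, (χ⁻¹ ^ j) a * psiB (F := F) ω hω3 (a * x) +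
      ∑ a : F, (χ⁻¹ ^ (j + 121)) a * psiB (F := F) ω hω3 (a * x)) =
      ∑ a : F, ((χ⁻¹ ^ j) a + (χ⁻¹ ^ (j + 121)) a) * (g x * psiB (F := F) ω hω3 (a * x)) := by
    intro x
    rw [← Finset.sum_add_distrib, Finset.mul_sum]
    refine Finset.sum_congr rfl fun a _ => ?_
    ring
  simp_rw [h1]
  rw [Finset.sum_comm]
  refine Finset.sum_eq_zero fun a _ => ?_
  rw [← Finset.mul_sum]
  by_cases ha : a = 0
  · subst ha
    rw [MulChar.map_zero, MulChar.map_zero]
    simp
  by_cases hsq : IsSquare a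
  · rw [hg a ha hsq, mul_zero]
  · have h2 : (χ⁻¹ ^ (j + 121)) a = - (χ⁻¹ ^ j) a := by
      rw [pow_add, MulChar.mul_apply, quad_nonsq res ι χ hχ hF hk ha hsq]
      ring
    rw [h2]
    ring

include hχ in
/-- a relation on the squares reduces to a function whose `T₀`-moments vanish -/
theorem reduce (hF : Fintype.card F = 243) (hk : (3 : k) = 0) (h3 : (3 : B) ≠ 0)
    (hω : 1 + ω + ω ^ 2 = 0) (hres : ∀ b, res b ≠ 0 → IsUnit b) (g : F → B)
    (hg : ∀ a : F, a ≠ 0 → IsSquare a → ∑ x, g x * psiB (F := F) ω hω3 (a * x) = 0)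
    {j : ℕ} (hj : j < 243) (hb : t0mask.testBit j = true) :
    ∑ x, res (g x) * ι x ^ j = 0 := by
  obtain ⟨hj2, hj121, hds⟩ := t0_facts' hj hb
  have hrel := rel_zero res ι χ hχ ω hω3 hF hk g hg j
  have hpi := res_pi res ω hω3 hk hω
  have hmod : (j + 121) % 242 < 242 := Nat.mod_lt _ (by norm_num)
  obtain ⟨u', hu', hG'⟩ := stick res ι χ hχ ω hω3 hF hk h3 hω hres ((j + 121) % 242) hmod
  rw [← G_mod χ ω hω3 hF] at hG'
  obtain ⟨u, hu, hG⟩ := stick res ι χ hχ ω hω3 hF hk h3 hω hres j hj2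
  have hnd : ¬ 242 ∣ (j + 121) := by omega
  have hπ0 : (1 - ω) ≠ 0 := by
    intro h
    exact three_ne ω h3 hω (sub_eq_zero.mp h).symm
  by_cases hj0 : j = 0
  · subst hj0
    have hds0 : ds 5 ((0 + 121) % 242) ≠ 0 := by
      intro h
      rw [h] at hds
      omega
    have h1 : res (∑ x, g x * (∑ a : F, (χ⁻¹ ^ 0) a * psiB (F := F) ω hω3 (a * x) +
      ∑ a : F, (χ⁻¹ ^ (0 + 121)) a * psiB (F := F) ω hω3 (a * x))) = 0 := by
      rw [hrel, map_zero]
    rw [map_sum] at h1
    have h2 : ∀ x, res (g x * (∑ a : F, (χ⁻¹ ^ 0) a * psiB (F := F) ω hω3 (a * x) +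
      ∑ a : F, (χ⁻¹ ^ (0 + 121)) a * psiB (F := F) ω hω3 (a * x))) = - res (g x) := by
      intro x
      rw [shift_gauss' res ι χ hχ ω hω3 hF hnd, hG', map_mul, map_add, map_mul, map_mul, map_pow,
        hpi, zero_pow hds0, mul_zero, mul_zero, add_zero]
      by_cases hx : x = 0
      · subst hx
        simp only [mul_zero, AddChar.map_zero_eq_one, mul_one, pow_zero]
        have h4 : ∑ a : F, (1 : MulChar F B) a = ((Fintype.card Fˣ : ℕ) : B) :=
          MulChar.sum_one_eq_card_units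
        rw [h4, Fintype.card_units, hF, map_natCast]
        have h5 : ((243 - 1 : ℕ) : k) = -1 := by
          have : ((243 - 1 : ℕ) : k) = 81 * 3 - 1 := by norm_num
          rw [this, hk]; ring
        rw [h5]
        ring
      · rw [shift_gauss χ ω hω3 0 x hx, G_zero χ ω hω3 h3 hω, pow_zero,
          MulChar.one_apply (IsUnit.mk0 x hx)]
        simp
    simp_rw [h2] at h1
    rw [Finset.sum_neg_distrib, neg_eq_zero] at h1
    simpa using h1
  · have hnd0 : ¬ 242 ∣ j := by
      intro h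
      obtain ⟨c, hc⟩ := h
      rcases Nat.eq_zero_or_pos c with h | h
      · subst h; omega
      · have : 242 * 1 ≤ 242 * c := Nat.mul_le_mul_left _ h
        omega
    have h1 : ∑ x, g x * ((χ ^ j) x * u + (χ ^ (j + 121)) x * u' *
        (1 - ω) ^ (ds 5 ((j + 121) % 242) - ds 5 j)) = 0 := by
      have hne : (1 - ω) ^ ds 5 j ≠ 0 := pow_ne_zero _ hπ0
      apply mul_left_cancel₀ hne
      rw [mul_zero, ← hrel, Finset.mul_sum]
      refine Finset.sum_congr rfl fun x _ => ?_
      rw [shift_gauss' res ι χ hχ ω hω3 hF hnd, shift_gauss' res ι χ hχ ω hω3 hF hnd0, hG, hG']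
      have : (1 - ω) ^ ds 5 ((j + 121) % 242) =
          (1 - ω) ^ ds 5 j * (1 - ω) ^ (ds 5 ((j + 121) % 242) - ds 5 j) := by
        rw [← pow_add]
        congr 1
        omega
      rw [this]
      ring
    have h2 : res u * ∑ x, res (g x) * ι x ^ j = 0 := by
      rw [Finset.mul_sum]
      have h3' : res (∑ x, g x * ((χ ^ j) x * u + (χ ^ (j + 121)) x * u' *
        (1 - ω) ^ (ds 5 ((j + 121) % 242) - ds 5 j))) = 0 := by rw [h1, map_zero]
      rw [map_sum] at h3'
      rw [← h3']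
      refine Finset.sum_congr rfl fun x _ => ?_
      rw [map_mul, map_add, map_mul, map_mul, map_pow, hpi, zero_pow (by omega), mul_zero,
        add_zero, MulChar.pow_apply' _ hj0, map_pow, hχ]
      ring
    rcases mul_eq_zero.mp h2 with h | h
    · exact absurd h (hu.map res).ne_zero
    · exact h

end H30.Paley
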