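import Pool.Agent.H30.Paley.Cert

/-!
# Ternary words with vanishing `T₀`-moments have weight at least `33`
-/

namespace H30.Paley

open Finset

/-- digitwise domination in base `3` (`n` digits) -/
def dom : ℕ → ℕ → ℕ → Bool
  | 0, _, _ => true
  | n + 1, j, i => decide (i % 3 ≤ j % 3) && dom n (j / 3) (i / 3)

lemma choose_zero_of_dom {R : Type*} [CommRing R] [CharP R 3] :
    ∀ n j i : ℕ, dom n j i = false → ((j.choose i : ℕ) : R) = 0 := by
  intro n
  induction n with
  | zero => intro j i h; simp [dom] at h
  | succ n ih =>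
    intro j i h
    have : Fact (Nat.Prime 3) := ⟨Nat.prime_three⟩
    have hl := Choose.choose_modEq_choose_mod_mul_choose_div_nat (n := j) (k := i) (p := 3)
    have h1 : ((j.choose i : ℕ) : R) =
        (((j % 3).choose (i % 3) * (j / 3).choose (i / 3) : ℕ) : R) := by
      exact (CharP.natCast_eq_natCast R 3).mpr hl
    rw [h1]
    rw [dom, Bool.and_eq_false_iff] at h
    rcases h with h | h
    · have h2 : j % 3 < i % 3 := by
        have := of_decide_eq_false h
        omega
      rw [Nat.choose_eq_zero_of_lt h2]
      simp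
    · push_cast
      rw [ih _ _ h, mul_zero]

/-- every `i ≤ j` dominated by `j` is in `T₀` or in the list `S` -/
def allSub (j : ℕ) (S : List ℕ) : Bool :=
  (List.range (j + 1)).all fun i => !(dom 5 j i) || t0mask.testBit i || S.contains i

variable {F : Type*} [Field F] [Fintype F] [DecidableEq F]

/-- translate of a function -/
def tr (t : F) (f : F → F) : F → F := fun x => f (x + t)

omit [DecidableEq F] in
lemma mu_tr (t : F) (f : F → F) (j : ℕ) :
    mu (tr t f) j = ∑ i ∈ range (j + 1), (j.choose i : F) * (-t) ^ (j - i) * mu f i := by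
  unfold mu tr
  have h1 : ∑ x, f (x + t) * x ^ j = ∑ y, f y * (y - t) ^ j := by
    rw [← Equiv.sum_comp (Equiv.addRight t) (fun y => f y * (y - t) ^ j)]
    refine Finset.sum_congr rfl fun x _ => ?_
    simp
  rw [h1]
  have h2 : ∀ y : F, f y * (y - t) ^ j =
      ∑ i ∈ range (j + 1), (j.choose i : F) * (-t) ^ (j - i) * (f y * y ^ i) := by
    intro y
    rw [sub_eq_add_neg, add_pow, Finset.mul_sum]
    refine Finset.sum_congr rfl fun i _ => ?_
    ring
  simp_rw [h2]
  rw [Finset.sum_comm]
  refine Finset.sum_congr rfl fun i _ => ?_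
  rw [Finset.mul_sum]

omit [DecidableEq F] in
lemma term_zero [CharP F 3] {f : F → F} (h0 : ∀ j < 243, t0mask.testBit j = true → mu f j = 0)
    {j : ℕ} (hj : j < 243) {S : List ℕ} (hs : allSub j S = true) (t : F) {i : ℕ}
    (hi : i ∈ range (j + 1)) (hiS : i ∉ S) :
    (j.choose i : F) * (-t) ^ (j - i) * mu f i = 0 := by
  unfold allSub at hs
  rw [List.all_eq_true] at hs
  have := hs i (List.mem_range.mpr (Finset.mem_range.mp hi))
  simp only [Bool.or_eq_true, Bool.not_eq_true', List.contains_iff_mem] at this
  have hij : i < 243 := by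
    have := Finset.mem_range.mp hi
    omega
  rcases this with (h | h) | h
  · rw [choose_zero_of_dom 5 j i h]; ring
  · rw [h0 i hij h]; ring
  · exact absurd h hiS

lemma t0_closed : ((List.range 243).all fun j => !(t0mask.testBit j) || allSub j []) = true := by
  decide +kernel

lemma isWord_tr [CharP F 3] {f : F → F} (hf : IsWord f) (t : F) : IsWord (tr t f) := by
  refine ⟨fun x => hf.cube _, fun j hj hb => ?_⟩
  rw [mu_tr]
  refine Finset.sum_eq_zero fun i hi => ?_
  have h := t0_closed
  rw [List.all_eq_true] at h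
  have := h j (List.mem_range.mpr hj)
  rw [hb] at this
  simp only [Bool.not_true, Bool.false_or] at this
  exact term_zero hf.zero hj this t hi (by simp)

lemma mu_tr_self [CharP F 3] {f : F → F} (hf : IsWord f) (t : F) {j : ℕ} (hj : j < 243)
    (hs : allSub j [j] = true) : mu (tr t f) j = mu f j := by
  rw [mu_tr, Finset.sum_eq_single j]
  · simp
  · intro i hi hne
    exact term_zero hf.zero hj hs t hi (by simpa using hne)
  · intro h
    exact absurd (Finset.mem_range.mpr (by omega)) h

lemma mu_tr_23 [CharP F 3] {f : F → F} (hf : IsWord f) (t : F) :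
    mu (tr t f) 23 = mu f 23 + t ^ 9 * mu f 14 := by
  rw [mu_tr]
  have hsub : ({14, 23} : Finset ℕ) ⊆ range (23 + 1) := by decide
  rw [← Finset.sum_subset hsub]
  · rw [Finset.sum_pair (by norm_num)]
    have h1 : ((Nat.choose 23 14 : ℕ) : F) = -1 := by
      have : (Nat.choose 23 14 : ℕ) = 3 * 272396 + 2 := by decide +kernel
      have h3 : ((3 : ℕ) : F) = 0 := CharP.cast_eq_zero F 3
      have h2 : ((2 : ℕ) : F) = -1 := by
        have : ((2 : ℕ) : F) + 1 = ((3 : ℕ) : F) := by norm_num
        rw [h3] at this
        linear_combination this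
      rw [this, Nat.cast_add, Nat.cast_mul, h3, h2]; ring
    rw [h1]
    simp only [Nat.choose_self, Nat.cast_one, Nat.sub_self, pow_zero, one_mul, mul_one]
    have : (-t) ^ (23 - 14) = - t ^ 9 := by
      norm_num
      ring
    rw [this]
    ring
  · intro i hi hne
    refine term_zero hf.zero (by norm_num) (S := [14, 23]) (by decide +kernel) t hi ?_
    simpa using hne

/-- support -/
def supp (f : F → F) : Finset F := univ.filter fun x => f x ≠ 0

lemma mem_supp {f : F → F} {x : F} : x ∈ supp f ↔ f x ≠ 0 := by simp [supp]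

lemma card_supp_tr (f : F → F) (t : F) : (supp (tr t f)).card = (supp f).card := by
  refine Finset.card_bij (fun x _ => x + t) ?_ ?_ ?_
  · intro x hx
    rw [mem_supp] at hx ⊢
    exact hx
  · intro a _ b _ h
    exact add_right_cancel h
  · intro y hy
    refine ⟨y - t, ?_, by ring⟩
    rw [mem_supp] at hy ⊢
    unfold tr
    rwa [sub_add_cancel]

/-- the moment `242` -/
lemma mu_242 (hF : Fintype.card F = 243) (f : F → F) : mu f 242 = mu f 0 - f 0 := by
  unfold mu
  simp only [pow_zero, mul_one]
  rw [eq_sub_iff_add_eq]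
  have h1 : ∑ x, f x * x ^ 242 = ∑ x ∈ univ.erase 0, f x := by
    rw [← Finset.add_sum_erase univ (fun x => f x * x ^ 242) (Finset.mem_univ 0)]
    simp only [ne_eq, OfNat.ofNat_ne_zero, not_false_eq_true, zero_pow, mul_zero, zero_add]
    refine Finset.sum_congr rfl fun x hx => ?_
    have hx0 : x ≠ 0 := Finset.ne_of_mem_erase hx
    have := FiniteField.pow_card_sub_one_eq_one x hx0
    rw [hF] at this
    norm_num at this
    rw [this, mul_one]
  rw [h1, add_comm]
  exact Finset.add_sum_erase univ f (Finset.mem_univ 0)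

lemma mu_zero {f : F → F} (hf : IsWord f) : mu f 0 = 0 :=
  hf.zero 0 (by norm_num) (by decide +kernel)

lemma bound_of_c [CharP F 3] (hF : Fintype.card F = 243) {f : F → F} (hf : IsWord f)
    (hc : mu f 121 ≠ 0) : 33 ≤ (supp f).card := by
  have hne : (supp f).Nonempty := by
    by_contra h
    rw [Finset.not_nonempty_iff_eq_empty] at h
    apply hc
    unfold mu
    refine Finset.sum_eq_zero fun x _ => ?_
    have : f x = 0 := by
      by_contra hx
      have := mem_supp.mpr hx
      rw [h] at this
      simp at this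
    rw [this, zero_mul]
  by_cases hcase : mu f 14 = 0 ∨ mu f 47 = 0
  · obtain ⟨x0, hx0⟩ := hne
    rw [mem_supp] at hx0
    have hg := isWord_tr hf x0
    have hg0 : tr x0 f 0 ≠ 0 := by
      unfold tr
      rwa [zero_add]
    rw [← card_supp_tr f x0]
    refine caseI hF hg (supp (tr x0 f)) (fun x hx => ?_) ⟨0, mem_supp.mpr hg0⟩ ?_ ?_ ?_
    · by_contra h
      exact hx (mem_supp.mpr h)
    · rwa [mu_tr_self hf x0 (by norm_num) (by decide +kernel)]
    · rw [mu_242 hF, mu_zero hg, zero_sub]
      exact neg_ne_zero.mpr hg0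
    · rwa [mu_tr_self hf x0 (j := 14) (by norm_num) (by decide +kernel),
        mu_tr_self hf x0 (j := 47) (by norm_num) (by decide +kernel)]
  · push Not at hcase
    obtain ⟨h14, h47⟩ := hcase
    set s : F := - mu f 23 / mu f 14 with hs
    set t : F := s ^ 27 with ht
    have ht9 : t ^ 9 = s := by
      have := FiniteField.pow_card s
      rw [hF] at this
      rw [ht, ← pow_mul]
      exact this
    have hg := isWord_tr hf t
    have hsup : (supp (tr t f)).Nonempty := by
      rw [← Finset.card_pos, card_supp_tr, Finset.card_pos]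
      exact hne
    rw [← card_supp_tr f t]
    refine caseII hF hg (supp (tr t f)) (fun x hx => ?_) hsup ?_ ?_ ?_ ?_
    · by_contra h
      exact hx (mem_supp.mpr h)
    · rwa [mu_tr_self hf t (by norm_num) (by decide +kernel)]
    · rwa [mu_tr_self hf t (by norm_num) (by decide +kernel)]
    · rwa [mu_tr_self hf t (by norm_num) (by decide +kernel)]
    · rw [mu_tr_23 hf, ht9, hs]
      field_simp
      ring

/-- inversion -/
def inve (f : F → F) : F → F := fun x => x ^ 121 * f x⁻¹

lemma mu_inve (hF : Fintype.card F = 243) (f : F → F) {j : ℕ} (hj : j ≤ 242) :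
    mu (inve f) j = mu f (363 - j) := by
  unfold mu inve
  rw [← Equiv.sum_comp (Equiv.inv F) (fun x => x ^ 121 * f x⁻¹ * x ^ j)]
  refine Finset.sum_congr rfl fun x _ => ?_
  simp only [Equiv.inv_apply, inv_inv]
  by_cases hx : x = 0
  · subst hx
    simp
    omega
  · have h242 : x ^ 242 = 1 := by
      have := FiniteField.pow_card_sub_one_eq_one x hx
      rw [hF] at this
      exact this
    have h1 : x ^ (363 - j) * x ^ (121 + j) = 1 := by
      rw [← pow_add]
      have : 363 - j + (121 + j) = 242 * 2 := by omega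
      rw [this, pow_mul, h242, one_pow]
    have h2 : x⁻¹ ^ 121 * x⁻¹ ^ j = x ^ (363 - j) := by
      rw [← pow_add, inv_pow]
      exact (eq_inv_of_mul_eq_one_left h1).symm
    calc x⁻¹ ^ 121 * f x * x⁻¹ ^ j = f x * (x⁻¹ ^ 121 * x⁻¹ ^ j) := by ring
      _ = f x * x ^ (363 - j) := by rw [h2]

lemma inv_t0 : ((List.range 243).all fun j => !(t0mask.testBit j) || j == 0 ||
    t0mask.testBit (fold (363 - j))) = true := by
  decide +kernel

lemma isWord_inve (hF : Fintype.card F = 243) {f : F → F} (hf : IsWord f)
    (hc : mu f 121 = 0) : IsWord (inve f) := by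
  refine ⟨fun x => ?_, fun j hj hb => ?_⟩
  · unfold inve
    by_cases hx : x = 0
    · subst hx; simp
    · have h242 : x ^ 242 = 1 := by
        have := FiniteField.pow_card_sub_one_eq_one x hx
        rw [hF] at this
        exact this
      rw [mul_pow, hf.cube, ← pow_mul]
      have : x ^ (121 * 3) = x ^ 121 := by
        have : 121 * 3 = 242 + 121 := by norm_num
        rw [this, pow_add, h242, one_mul]
      rw [this]
  · rw [mu_inve hF f (by omega), ← mu_fold hF]
    have h := inv_t0
    rw [List.all_eq_true] at h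
    have := h j (List.mem_range.mpr hj)
    rw [hb] at this
    simp only [Bool.not_true, Bool.false_or, Bool.or_eq_true, beq_iff_eq] at this
    rcases this with h1 | h1
    · subst h1
      have : fold (363 - 0) = 121 := by decide
      rw [this, hc]
    · exact hf.zero _ (fold_lt _) h1

theorem word_bound [CharP F 3] (hF : Fintype.card F = 243) {f : F → F} (hf : IsWord f)
    (hne : f ≠ 0) : 33 ≤ (supp f).card := by
  by_cases hc : mu f 121 = 0
  · obtain ⟨x0, hx0⟩ := Function.ne_iff.mp hne
    have hg := isWord_tr hf x0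
    have hg0 : tr x0 f 0 ≠ 0 := by
      unfold tr
      rwa [zero_add]
    have hgc : mu (tr x0 f) 121 = 0 := by
      rwa [mu_tr_self hf x0 (by norm_num) (by decide +kernel)]
    have hh := isWord_inve hF hg hgc
    have hhc : mu (inve (tr x0 f)) 121 ≠ 0 := by
      rw [mu_inve hF _ (by norm_num)]
      rw [show 363 - 121 = 242 by norm_num, mu_242 hF, mu_zero hg, zero_sub]
      exact neg_ne_zero.mpr hg0
    have h1 := bound_of_c hF hh hhc
    have h2 : (supp (inve (tr x0 f))).card ≤ (supp (tr x0 f)).card := by
      refine Finset.card_le_card_of_injOn (fun x => x⁻¹) ?_ ?_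
      · intro x hx
        simp only [Finset.mem_coe] at hx ⊢
        rw [mem_supp] at hx ⊢
        unfold inve at hx
        exact right_ne_zero_of_mul hx
      · intro a _ b _ h
        exact inv_injective h
    rw [card_supp_tr] at h2
    omega
  · exact bound_of_c hF hf hc

end H30.Paley
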